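import Mathlib
import Pool.Agent.H29.DDecomp

set_option autoImplicit false

namespace Pool.Agent.Results.MP_28dfab_co.Counter

open Pool.Agent.H29.DDecomp

theorem result : ∃ (P : Type) (_ : Fintype P) (_ : PartialOrder P),
    ¬ ContainsP6 P ∧ ¬ Decomposable P :=
  ⟨Ex, inferInstance, inferInstance, noP6, notDec⟩

end Pool.Agent.Results.MP_28dfab_co.Counter
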